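import Pool.Agent.H61.HB.Stmts4

set_option autoImplicit false

namespace HB

theorem shf_sq_nonneg (k : Z2) : 0 ≤ sq k := by
  unfold sq
  positivity

/-- the distance: `|a + c| ≥ N / 2` -/
theorem shf_low (M N : ℝ) (a c : Z2) (hM : 0 ≤ M) (hMN : 2 * M ≤ N) (hN : 0 < N)
    (hc : N ^ 2 ≤ sq c) (ha : sq a ≤ M ^ 2) : N ^ 2 / 4 ≤ sq (a + c) := by
  set A := √(sq a) with hA
  set C := √(sq c) with hC
  have hA2 : A ^ 2 = sq a := Real.sq_sqrt (shf_sq_nonneg a)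
  have hC2 : C ^ 2 = sq c := Real.sq_sqrt (shf_sq_nonneg c)
  have hA0 : 0 ≤ A := Real.sqrt_nonneg _
  have hC0 : 0 ≤ C := Real.sqrt_nonneg _
  have hAM : A ≤ M := by
    rw [hA]
    exact Real.sqrt_le_iff.2 ⟨hM, ha⟩
  have hCN : N ≤ C := by
    rw [hC]
    exact Real.le_sqrt_of_sq_le hc
  have hin : -(A * C) ≤ (a.1 : ℝ) * c.1 + (a.2 : ℝ) * c.2 := by
    have h1 : ((a.1 : ℝ) * c.1 + (a.2 : ℝ) * c.2) ^ 2 ≤ (A * C) ^ 2 := by
      rw [mul_pow, hA2, hC2]
      unfold sq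
      nlinarith [sq_nonneg ((a.1 : ℝ) * c.2 - (a.2 : ℝ) * c.1)]
    exact (abs_le.1 (abs_le_of_sq_le_sq h1 (mul_nonneg hA0 hC0))).1
  have hex : sq (a + c) = A ^ 2 + C ^ 2 + 2 * ((a.1 : ℝ) * c.1 + (a.2 : ℝ) * c.2) := by
    rw [hA2, hC2]
    unfold sq
    simp only [Prod.fst_add, Prod.snd_add]
    push_cast
    ring
  have h3 : (C - A) ^ 2 ≤ sq (a + c) := by
    rw [hex]
    nlinarith
  have h4 : N / 2 ≤ C - A := by linarith
  nlinarith

theorem shf_thm (h1 : FSBStmt) : SHFStmt := by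
  intro M N σ c q hM hMN hN hc hσ hq
  obtain ⟨-, hmem, -, -, -, -, hsh⟩ := h1
  have hms : Mem σ (sh c q) := hmem _ σ _ (hsh M c q hM hq)
  have hm0 : Mem 0 q := hmem M 0 q hq
  refine ⟨hms, ?_⟩
  unfold nsq
  rw [Finset.mul_sum]
  refine Finset.sum_le_sum fun j _ => ?_
  unfold nqS
  have hs1 : Summable fun k => (1 + sq k) ^ σ * ‖sh c q j k‖ ^ 2 := hms j
  have hs2 : Summable fun a => (1 + sq (a + c)) ^ σ * ‖q j a‖ ^ 2 := by
    have h := (Equiv.addRight c).summable_iff.2 hs1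
    refine h.congr fun a => ?_
    simp only [Function.comp, Equiv.coe_addRight, sh, add_sub_cancel_right]
  have heq : ∑' k, (1 + sq k) ^ σ * ‖sh c q j k‖ ^ 2 =
      ∑' a, (1 + sq (a + c)) ^ σ * ‖q j a‖ ^ 2 := by
    rw [← (Equiv.addRight c).tsum_eq]
    refine tsum_congr fun a => ?_
    simp only [Equiv.coe_addRight, sh, add_sub_cancel_right]
  rw [heq, ← tsum_mul_left]
  refine Summable.tsum_le_tsum (fun a => ?_) hs2 ((hm0 j).mul_left _)
  by_cases h0 : q j a = 0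
  · rw [h0]
    simp
  · have ha : sq a ≤ M ^ 2 := by
      by_contra h
      exact h0 (hq j a (not_le.1 h))
    have hl := shf_low M N a c hM hMN hN hc ha
    have hp : 0 < N ^ 2 / 4 := by positivity
    rw [Real.rpow_zero, one_mul]
    refine mul_le_mul_of_nonneg_right ?_ (by positivity)
    exact Real.rpow_le_rpow_of_nonpos hp (by linarith) hσ

end HB
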